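import Pool.Agent.Helper25.T5b.Out
import Mathlib.Analysis.Complex.ExponentialBounds

/-!
# T5b: sizes as exponentials
-/

set_option autoImplicit false

namespace Pool.Agent.Helper25.T5b

open Finset Pool.Agent.Helper27.T4
open Pool.Agent.Helper5.ET (bb era own cnt av Nj pr pr_prime pr_inj pre mask)
open Pool.Agent.Helper37.T5b Pool.Agent.Helper84.T5b Pool.Agent.Helper57.T5
open Pool.Agent.Helper27.T5b hiding c0_lt
open Pool.Agent.Helper30.T5b
open Pool.Agent.Helper27.T5 (gw)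

variable {m k : ℕ}

theorem pow6_le (n : ℕ) : (((10 ^ 6) ^ n : ℕ) : ℝ) ≤ Real.exp (14 * n) := by
  have h1 : ((10 : ℝ) ^ 6) ≤ Real.exp 14 := by
    have h2 := Real.exp_one_gt_d9
    have h3 : Real.exp 14 = Real.exp 1 ^ 14 := by
      rw [← Real.exp_nat_mul]
      norm_num
    rw [h3]
    calc (10 : ℝ) ^ 6 ≤ 2.7182818283 ^ 14 := by norm_num
      _ ≤ _ := pow_le_pow_left₀ (by norm_num) h2.le _
  rw [Nat.cast_pow, Nat.cast_pow, Nat.cast_ofNat]
  calc ((10 : ℝ) ^ 6) ^ n ≤ Real.exp 14 ^ n := pow_le_pow_left₀ (by positivity) h1 _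
    _ = _ := by rw [← Real.exp_nat_mul, mul_comm]

theorem le_pow6 (n : ℕ) : Real.exp (13 * n) ≤ (((10 ^ 6) ^ n : ℕ) : ℝ) := by
  have h1 : Real.exp 13 ≤ ((10 : ℝ) ^ 6) := by
    have h2 := Real.exp_one_lt_d9
    have h3 : Real.exp 13 = Real.exp 1 ^ 13 := by
      rw [← Real.exp_nat_mul]
      norm_num
    rw [h3]
    calc Real.exp 1 ^ 13 ≤ 2.7182818286 ^ 13 :=
          pow_le_pow_left₀ (Real.exp_pos _).le h2.le _
      _ ≤ _ := by norm_num
  rw [Nat.cast_pow, Nat.cast_pow, Nat.cast_ofNat]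
  calc Real.exp (13 * n) = Real.exp 13 ^ n := by rw [← Real.exp_nat_mul, mul_comm]
    _ ≤ _ := pow_le_pow_left₀ (Real.exp_pos _).le h1 _

/-- a natural number is at most an exponential -/
theorem nat_le_exp (n : ℕ) {x : ℝ} (h : (n : ℝ) ≤ x) : (n : ℝ) ≤ Real.exp x :=
  h.trans (by have := Real.add_one_le_exp x; linarith)

/-- late triples: sizes of the triple `s` -/
theorem exists_size (hm : 0 < m) (k M : ℕ) : ∃ s0, ∀ s, s0 ≤ s →
    1 ≤ s ∧ (M : ℝ) ≤ SS m s ∧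
    (∀ f, Real.exp (SS m s) ≤ QF m k s f) ∧
    (QT m k s : ℝ) ≤ Real.exp (14 * SS m s) ∧
    (M : ℝ) * RT m k (s - 1) ≤ Real.exp (1 / 1000 * SS m s) := by
  obtain ⟨t0, ht0⟩ := exists_mul_le_SS hm (M + 2 * BP k + 1)
  obtain ⟨t1, ht1⟩ := exists_mul_le_SS hm (2000 * M + 1)
  refine ⟨t0 + t1 + 1, fun s hs => ?_⟩
  obtain ⟨u, rfl⟩ : ∃ u, s = u + 1 := ⟨s - 1, by omega⟩
  have h1 := ht0 (u + 1) (by omega)
  have h2 : M + 2 * BP k + 1 ≤ SS m (u + 1) :=
    le_trans (Nat.le_mul_of_pos_right _ (by omega)) h1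
  have h2R : (M : ℝ) + 2 * BP k + 1 ≤ SS m (u + 1) := by exact_mod_cast h2
  have hM0 : (0 : ℝ) ≤ M := Nat.cast_nonneg _
  have hB0 : (0 : ℝ) ≤ BP k := Nat.cast_nonneg _
  have h3 := SS_le_two_Sg hm u
  have hS0 : (0 : ℝ) ≤ SS m (u + 1) := Nat.cast_nonneg _
  refine ⟨by omega, by linarith, fun f => ?_, ?_, ?_⟩
  · have h4 := eight_mul_dz hm (u + 1) f
    have h5 : 2 ≤ gw f := by fin_cases f <;> simp [gw]
    have h6 : SS m (u + 1) ≤ 8 * dz m (u + 1) f := by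
      rw [h4]
      calc SS m (u + 1) ≤ 2 * Sg m (u + 1) := h3
        _ ≤ gw f * Sg m (u + 1) := Nat.mul_le_mul_right _ h5
    have h6R : (SS m (u + 1) : ℝ) ≤ 8 * dz m (u + 1) f := by exact_mod_cast h6
    have h7 := lt_QF_mul m k (u + 1) f
    have h8 : (((10 ^ 6) ^ dz m (u + 1) f : ℕ) : ℝ) ≤ QF m k (u + 1) f * BP k := by
      have : (10 ^ 6) ^ dz m (u + 1) f ≤ QF m k (u + 1) f * BP k :=
        h7.le.trans (Nat.mul_le_mul_left _ (pz_le k (u + 1) f))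
      exact_mod_cast this
    have h9 : (BP k : ℝ) ≤ Real.exp (1 / 2 * SS m (u + 1)) := nat_le_exp _ (by linarith)
    have h10 : Real.exp (13 * dz m (u + 1) f) ≤ QF m k (u + 1) f *
        Real.exp (1 / 2 * SS m (u + 1)) :=
      (le_pow6 _).trans (h8.trans (mul_le_mul_of_nonneg_left h9 (Nat.cast_nonneg _)))
    have h11 : Real.exp (SS m (u + 1)) * Real.exp (1 / 2 * SS m (u + 1)) ≤
        QF m k (u + 1) f * Real.exp (1 / 2 * SS m (u + 1)) := by
      refine le_trans ?_ h10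
      rw [← Real.exp_add]
      apply Real.exp_le_exp.2
      linarith
    exact le_of_mul_le_mul_right h11 (Real.exp_pos _)
  · have h4 := QT_le hm k (u + 1)
    have h5 : (QT m k (u + 1) : ℝ) ≤ (((10 ^ 6) ^ Sg m (u + 1) : ℕ) : ℝ) := by exact_mod_cast h4
    refine h5.trans ((pow6_le _).trans (Real.exp_le_exp.2 ?_))
    have h6 : (Sg m (u + 1) : ℝ) ≤ SS m (u + 1) := by exact_mod_cast Sg_le m (u + 1)
    linarith
  · rw [Nat.add_sub_cancel]
    have h4 := RT_le hm k u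
    have h5 : (RT m k u : ℝ) ≤ (((10 ^ 6) ^ SS m u : ℕ) : ℝ) := by exact_mod_cast h4
    have h6 := SS_succ_ge hm u
    have h7 : 100000 * SS m u ≤ SS m (u + 1) :=
      le_trans (Nat.mul_le_mul_right _ (by norm_num)) h6
    have h7R : (100000 : ℝ) * SS m u ≤ SS m (u + 1) := by exact_mod_cast h7
    have h8 := ht1 (u + 1) (by omega)
    have h9 : 2000 * M + 1 ≤ SS m (u + 1) :=
      le_trans (Nat.le_mul_of_pos_right _ (by omega)) h8
    have h9R : (2000 : ℝ) * M + 1 ≤ SS m (u + 1) := by exact_mod_cast h9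
    have h10 : (M : ℝ) ≤ Real.exp (1 / 2000 * SS m (u + 1)) := nat_le_exp _ (by linarith)
    calc (M : ℝ) * RT m k u ≤ Real.exp (1 / 2000 * SS m (u + 1)) * Real.exp (14 * SS m u) :=
          mul_le_mul h10 (h5.trans (pow6_le _)) (Nat.cast_nonneg _) (Real.exp_pos _).le
      _ = Real.exp (1 / 2000 * SS m (u + 1) + 14 * SS m u) := (Real.exp_add _ _).symm
      _ ≤ _ := Real.exp_le_exp.2 (by linarith)

/-- late states: the number of split levels is large -/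
theorem exists_sL (hm : 0 < m) (k s0 : ℕ) : ∃ l0, ∀ l, l0 ≤ l →
    bb 0 ≤ mL m k l ∧ kt m k ≤ era (mL m k l) ∧ s0 ≤ sL m k l := by
  obtain ⟨l1, h1⟩ := exists_bL hm k s0
  obtain ⟨l2, h2⟩ := exists_late (m := m) (k := k) hm 0 0
  refine ⟨l1 + l2, fun l hl => ?_⟩
  have h3 := h1 l (by omega)
  have h4 := h2 l (by omega)
  have h5 := rL_bounds hm k l
  exact ⟨h3.1, h4.2.2.1, by omega⟩

/-- `NL ≤ exp (15 l)` -/
theorem exists_NL_exp (hm : 0 < m) (k : ℕ) : ∃ l0, ∀ l, l0 ≤ l →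
    (NL m k l : ℝ) ≤ Real.exp (15 * l) := by
  obtain ⟨l0, C, h⟩ := exists_NL_le (m := m) (k := k) hm
  refine ⟨l0 + 100 * NL m k l0 + 100 * C + 1000, fun l hl => ?_⟩
  have h1 := h l0 l (l + l / 1000 + C + 1) le_rfl (by omega) (by omega)
  have h2 : (NL m k l : ℝ) ≤ NL m k l0 * (((10 ^ 6) ^ (l + l / 1000 + C + 1) : ℕ) : ℝ) := by
    exact_mod_cast h1
  have h3 := pow6_le (l + l / 1000 + C + 1)
  have h4 : (NL m k l0 : ℝ) ≤ Real.exp (NL m k l0) := nat_le_exp _ le_rfl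
  have h5 : ((l + l / 1000 + C + 1 : ℕ) : ℝ) ≤ l + l / 1000 + C + 1 := by
    push_cast
    have : ((l / 1000 : ℕ) : ℝ) ≤ (l : ℝ) / 1000 := Nat.cast_div_le
    linarith
  have h6 : (l0 : ℝ) + 100 * NL m k l0 + 100 * C + 1000 ≤ l := by exact_mod_cast hl
  have h7 : (0 : ℝ) ≤ NL m k l0 := Nat.cast_nonneg _
  have h8 : (0 : ℝ) ≤ C := Nat.cast_nonneg _
  have h9 : (0 : ℝ) ≤ l0 := Nat.cast_nonneg _
  calc (NL m k l : ℝ) ≤ NL m k l0 * (((10 ^ 6) ^ (l + l / 1000 + C + 1) : ℕ) : ℝ) := h2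
    _ ≤ Real.exp (NL m k l0) * Real.exp (14 * ((l + l / 1000 + C + 1 : ℕ) : ℝ)) :=
        mul_le_mul h4 h3 (Nat.cast_nonneg _) (Real.exp_pos _).le
    _ = Real.exp (NL m k l0 + 14 * ((l + l / 1000 + C + 1 : ℕ) : ℝ)) := (Real.exp_add _ _).symm
    _ ≤ _ := Real.exp_le_exp.2 (by linarith)

/-- the size of the outermost static level is at most `l` -/
theorem SS_sL_le (hm : 0 < m) {l : ℕ} (hy : bb 0 ≤ mL m k l) (h : kt m k ≤ era (mL m k l)) :
    SS m (sL m k l) ≤ l := by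
  have h1 := SS_sv_succ_le' hm hy h
  have h2 := SS_mono m (Nat.le_succ (sv m k (mL m k l)))
  have h3 : mL m k l ≤ l := l1_le (ins m k) l
  exact h2.trans (h1.trans h3)

/-- the fronts of the outermost static level -/
theorem front_ratio (hm : 0 < m) {l l' : ℕ} (hl : bb 0 ≤ mL m k l) (hl' : bb 0 ≤ mL m k l')
    (hs : sL m k l' = sL m k l) (hs1 : 1 ≤ sL m k l)
    (h : SS m (sL m k l) ≤ 100 * (l - l')) :
    (Jn m k (sL m k l) (ez m (sL m k l - 1) l') : ℝ) ≤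
      Jn m k (sL m k l) (ez m (sL m k l - 1) l) * Real.exp (-(1 / 10 * SS m (sL m k l))) := by
  have h1 := FF_mul_RT (k := k) hm hl 1
  have h2 := FF_mul_RT (k := k) hm hl' 1
  have e1 : FF m k l 1 = Jn m k (sL m k l) (ez m (sL m k l - 1) l) := rfl
  have e2 : FF m k l' 1 = Jn m k (sL m k l) (ez m (sL m k l - 1) l') := by
    show Jn m k (sL m k l') (ez m (sL m k l' - 1) l') = _
    rw [hs]
  have e3 : ef m k l 1 = ez m (sL m k l - 1) l := rfl
  have e4 : ef m k l' 1 = ez m (sL m k l - 1) l' := by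
    show ez m (sL m k l' - 1) l' = _
    rw [hs]
  rw [e1, e3] at h1
  rw [e2, e4, hs] at h2
  obtain ⟨u, hu⟩ : ∃ u, sL m k l = u + 1 := ⟨sL m k l - 1, by omega⟩
  rw [hu, Nat.add_sub_cancel] at h1 h2 ⊢
  rw [hu] at h
  have h3 := two_ez_le m u l'
  have h4 := lt_two_ez hm u l
  have h5 := PZ_mul hm u
  have h6 := SS_succ_ge hm u
  have h7 : 100000 * SS m u ≤ SS m (u + 1) :=
    le_trans (Nat.mul_le_mul_right _ (by norm_num)) h6
  have h8 : SS m (u + 1) ≤ 101 * (ez m u l - ez m u l') := by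
    have := SS_pos m u
    omega
  have h9 : ez m u l' ≤ ez m u l := by
    have := SS_pos m (u + 1)
    omega
  have h10 := NL_lower m k h9
  have h11 : (NL m k (ez m u l') : ℝ) * (((10 ^ 6) ^ (ez m u l - ez m u l') : ℕ) : ℝ) ≤
      NL m k (ez m u l) := by exact_mod_cast h10
  have h8R : (SS m (u + 1) : ℝ) ≤ 101 * ((ez m u l - ez m u l' : ℕ) : ℝ) := by exact_mod_cast h8
  have h12 := le_pow6 (ez m u l - ez m u l')
  have h13 : (NL m k (ez m u l') : ℝ) * Real.exp (1 / 10 * SS m (u + 1)) ≤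
      NL m k (ez m u l) := by
    refine le_trans (mul_le_mul_of_nonneg_left ?_ (Nat.cast_nonneg _)) h11
    refine le_trans (Real.exp_le_exp.2 ?_) h12
    linarith
  have hR : (0 : ℝ) < RT m k (u + 1) := by exact_mod_cast RT_pos m k (u + 1)
  rw [← h1, ← h2] at h13
  push_cast at h13
  have h14 : (Jn m k (u + 1) (ez m u l') : ℝ) * Real.exp (1 / 10 * SS m (u + 1)) ≤
      Jn m k (u + 1) (ez m u l) := by
    refine le_of_mul_le_mul_right ?_ hR
    nlinarith [h13]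
  rw [Real.exp_neg, ← div_eq_mul_inv, le_div_iff₀ (Real.exp_pos _)]
  exact h14

end Pool.Agent.Helper25.T5b
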