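import Pool.Agent.Helper25.T5b.CrudeNum

/-!
# T5b: the crude case, `200 SS s ≤ l - l'`, no SPLIT between the states

`crude : Blk CaseUp CstC → Blk CaseCrude RpC`: by FARE many representations contain many ones with
constant main vectors.
-/

set_option autoImplicit false

namespace Pool.Agent.Helper25.T5b

open Finset Pool.Agent.Helper27.T4
open Pool.Agent.Helper5.ET (bb era own cnt av Nj pr pr_prime pr_inj pre mask)
open Pool.Agent.Helper37.T5b Pool.Agent.Helper84.T5b Pool.Agent.Helper57.T5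
open Pool.Agent.Helper27.T5b hiding c0_lt
open Pool.Agent.Helper30.T5b
open Pool.Agent.Helper98.T5 (al PrOK)
open Pool.Agent.Helper25.T5
open Pool.Agent.Helper42.T5.Pr

variable {m k : ℕ}

/-- a parameter of an element -/
theorem exists_par (m k l : ℕ) (w : Key → ℕ) : ∃ g : ℕ → Par m k l, ∀ a ∈ AA m k l w,
    g a ∈ Pm m k l w ∧ val m k l w (g a) = a := by
  classical
  have h : ∀ a : ℕ, ∃ q : Par m k l, a ∈ AA m k l w → q ∈ Pm m k l w ∧ val m k l w q = a := by
    intro a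
    by_cases ha : a ∈ AA m k l w
    · have h1 := ha
      rw [AA_eq, mem_image] at h1
      obtain ⟨q, hq, hv⟩ := h1
      exact ⟨q, fun _ => ⟨hq, hv⟩⟩
    · exact ⟨((fun _ => 0, fun _ _ => 0), 0), fun h => absurd h ha⟩
  choose g hg using h
  exact ⟨g, fun a ha => hg a ha⟩

/-- residues of an element given by parameters -/
theorem res_par (hm : 0 < m) {l : ℕ} {w : Key → ℕ} {q : Par m k l} (hq : q ∈ Pm m k l w) :
    q.1.1 ∈ Xg (pJ k (sL m k l)) (aJ m k (sL m k l) l) ∧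
    Res (pJ k (sL m k l)) (jS m k l) w (val m k l w q) q.1.1 := by
  unfold Pm at hq
  rw [mem_product, mem_product, mem_image] at hq
  obtain ⟨⟨hx, _⟩, v, _, hv⟩ := hq
  refine ⟨XJ_sub m k l hx, ?_⟩
  exact res_el hm (XJ_sub m k l hx) w q.1.2 (by rw [← hv]; exact dvd_mul_right _ _)

theorem dvd_two_pow_card : 2 ^ (2 * (3 + Fintype.card (Fin 4))) = 2 ^ 14 := by
  rw [Fintype.card_fin]

open Classical in
/-- the crude block on the definitions of T5b, for one pair of states -/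
theorem crude_pair (hm : 0 < m) {l l' : ℕ} (hs : sL m k l' = sL m k l) (w : Key → ℕ)
    (hr : ∀ a ∈ AA m k l' w, a < 17 * NL m k l') {n M : ℕ}
    (hR : (M + 1) ^ 2 ^ 14 ≤ Rp m k l l' w n)
    (hno : ¬ ∃ T ⊆ YY (pJ k (sL m k l)) (jS m k l) (jS m k l') (17 * NL m k l') n,
      (M + 1) ^ 2 ^ 14 ≤ T.card ∧
      (∀ y ∈ T, isHit (pJ k (sL m k l)) (jS m k l) (jS m k l') n w y) ∧
      Set.InjOn hz (T : Set (Hit JF)) ∧
      ¬ ∃ T' ⊆ T, T'.card = M + 1 ∧ ∃ C C' : Finset JF,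
        ((∀ f, Sum.inl f ∈ C) ∧ ∀ f, Sum.inl f ∈ C') ∧ Pat C C' T') :
    ∃ z z' : Fin 3 → ℕ, M + 1 ≤ ((Hts m k l l' w n).filter
      (fun q => (∀ f, q.1.1.1 (Sum.inl f) = z f) ∧ ∀ f, q.2.1.1 (Sum.inl f) = z' f)).card := by
  obtain ⟨g, hg⟩ := exists_par m k l w
  obtain ⟨g', hg'⟩ := exists_par m k l' w
  set R := (AA m k l w ×ˢ AA m k l' w).filter (fun q => q.1 + q.2 = n) with hRd
  have hRm : ∀ q ∈ R, q.1 ∈ AA m k l w ∧ q.2 ∈ AA m k l' w ∧ q.1 + q.2 = n := by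
    intro q hq
    rw [hRd, mem_filter, mem_product] at hq
    exact ⟨hq.1.1, hq.1.2, hq.2⟩
  set ψ : ℕ × ℕ → Hit JF := fun q => (q.1, (g q.1).1.1, (g' q.2).1.1) with hψ
  have hψinj : Set.InjOn ψ (R : Set (ℕ × ℕ)) := by
    intro q hq r hr' h
    have h1 : (ψ q).1 = (ψ r).1 := by rw [h]
    have h1' : q.1 = r.1 := h1
    have h2 := (hRm q hq).2.2
    have h3 := (hRm r hr').2.2
    exact Prod.ext h1' (by omega)
  by_contra hcon
  push Not at hcon
  apply hno
  refine ⟨R.image ψ, ?_, ?_, ?_, ?_, ?_⟩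
  · intro y hy
    rw [mem_image] at hy
    obtain ⟨q, hq, rfl⟩ := hy
    obtain ⟨h1, h2, h3⟩ := hRm q hq
    rw [mem_YY]
    have h4 := (res_par hm (hg q.1 h1).1).1
    have h5 := (res_par hm (hg' q.2 h2).1).1
    refine ⟨by show q.1 ≤ n; omega, h4, ?_, ?_⟩
    · show (g' q.2).1.1 ∈ Xg (pJ k (sL m k l)) (aJ m k (sL m k l') l')
      rw [← hs]
      exact h5
    · show n < q.1 + 17 * NL m k l'
      have := hr q.2 h2
      omega
  · rw [Finset.card_image_of_injOn hψinj]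
    exact hR
  · intro y hy
    rw [mem_image] at hy
    obtain ⟨q, hq, rfl⟩ := hy
    obtain ⟨h1, h2, h3⟩ := hRm q hq
    have h4 := (res_par hm (hg q.1 h1).1).2
    have h5 := (res_par hm (hg' q.2 h2).1).2
    rw [(hg q.1 h1).2] at h4
    rw [(hg' q.2 h2).2, hs] at h5
    refine ⟨h4, ?_⟩
    have h6 : n - q.1 = q.2 := by omega
    show Res (pJ k (sL m k l)) (jS m k l') w (n - q.1) (g' q.2).1.1
    rw [h6]
    exact h5
  · intro y hy y' hy' he
    rw [Finset.mem_coe, mem_image] at hy hy'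
    obtain ⟨q, hq, rfl⟩ := hy
    obtain ⟨r, hr', rfl⟩ := hy'
    have h1 : q.1 = r.1 := he
    have h2 := (hRm q hq).2.2
    have h3 := (hRm r hr').2.2
    have h4 : q = r := Prod.ext h1 (by omega)
    rw [h4]
  · rintro ⟨T', hT', hc, C, C', ⟨hC, hC'⟩, hP⟩
    obtain ⟨y0, hy0⟩ : T'.Nonempty := by
      rw [← Finset.card_pos, hc]
      exact Nat.succ_pos _
    have h1 := hcon (fun f => hx1 y0 (Sum.inl f)) (fun f => hx2 y0 (Sum.inl f))
    apply absurd h1
    rw [not_lt, ← hc]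
    refine Finset.card_le_card_of_injOn (fun y => (g (hz y), g' (n - hz y))) ?_ ?_
    · intro y hy
      rw [Finset.mem_coe] at hy
      have hyR := hT' hy
      rw [mem_image] at hyR
      obtain ⟨q, hq, rfl⟩ := hyR
      obtain ⟨a1, a2, a3⟩ := hRm q hq
      have a4 : n - q.1 = q.2 := by omega
      rw [Finset.mem_coe, mem_filter]
      refine ⟨?_, ?_, ?_⟩
      · unfold Hts
        rw [mem_filter, mem_product]
        show (g q.1 ∈ _ ∧ g' (n - q.1) ∈ _) ∧ val m k l w (g q.1) +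
          val m k l' w (g' (n - q.1)) = n
        rw [a4, (hg q.1 a1).2, (hg' q.2 a2).2]
        exact ⟨⟨(hg q.1 a1).1, (hg' q.2 a2).1⟩, a3⟩
      · intro f
        exact hP.1 _ hy _ hy0 _ (hC f)
      · intro f
        show (g' (n - q.1)).1.1 (Sum.inl f) = _
        rw [a4]
        exact hP.2.1 _ hy _ hy0 _ (hC' f)
    · intro y hy y' hy' he
      rw [Finset.mem_coe] at hy hy'
      have hyR := hT' hy
      have hyR' := hT' hy'
      rw [mem_image] at hyR hyR'
      obtain ⟨q, hq, rfl⟩ := hyR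
      obtain ⟨r, hr', rfl⟩ := hyR'
      obtain ⟨a1, a2, a3⟩ := hRm q hq
      obtain ⟨b1, b2, b3⟩ := hRm r hr'
      have h2 : g q.1 = g r.1 := congrArg Prod.fst he
      have h3 : q.1 = r.1 := by
        rw [← (hg q.1 a1).2, ← (hg r.1 b1).2, h2]
      have h4 : q = r := Prod.ext h3 (by omega)
      rw [h4]

/-- **the crude case from the case of given main vectors** -/
theorem crude (h : Blk CaseUp CstC) : Blk CaseCrude RpC := by
  obtain ⟨E, m0, h⟩ := h
  refine ⟨2 ^ 14 * (E + 2), max m0 1, fun m hm' => ?_⟩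
  have hm : 0 < m := (le_max_right m0 1).trans hm'
  obtain ⟨K0, C1, c0, q0, hC1, hc0, hq0, h⟩ := h m ((le_max_left _ _).trans hm')
  obtain ⟨lf, hf⟩ := farE_pr (ε := Fin 4) (BP (m ^ 2))
  obtain ⟨ln, hn⟩ := exists_crude_num hm (m ^ 2) lf
  obtain ⟨lr, hr⟩ := exists_AA_range hm (m ^ 2)
  set k := m ^ 2 with hk
  set C2 : ℝ := C1 + 2 * BP k + 1700 with hC2
  have hB0 : (0 : ℝ) ≤ BP k := Nat.cast_nonneg _
  have hC20 : 0 ≤ C2 := by linarith
  obtain ⟨P14, hP14⟩ : ∃ P14 : ℕ, P14 = 2 ^ 14 := ⟨_, rfl⟩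
  refine ⟨K0 + ln + lr + 100, (C2 + 2) ^ P14, min c0 (1 / 2), q0 + 1, by positivity,
    lt_min hc0 (by norm_num), by linarith, ?_⟩
  intro l l' hl' hl hC K hK hK'
  obtain ⟨n1, n2, n3, n4, n5, n6, n7, n8, n9, n10, n11, n12, n13, n14, n15, n16, n17⟩ :=
    hn l l' (by omega) hl hC
  obtain ⟨hN, hsame, h200⟩ := hC
  have hs : sL m k l' = sL m k l := hsame
  have hUp : CaseUp m k l' l := ⟨hN, hsame, n6⟩
  have hA := h l l' (by omega) hl hUp K hK hK'
  have hl1 : (1 : ℝ) ≤ (l : ℝ) := by exact_mod_cast (show 1 ≤ l by omega)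
  have hmR : (0 : ℝ) < (m : ℝ) := by exact_mod_cast hm
  set X : ℝ := (l : ℝ) ^ ((((E + 2 : ℕ)) : ℝ) / (m : ℝ)) with hX
  have hX1 : 1 ≤ X := Real.one_le_rpow hl1 (by positivity)
  set M : ℕ := ⌈C2 * X⌉₊ with hM
  have hMl : C2 * X ≤ M := Nat.le_ceil _
  have hMu : (M : ℝ) ≤ C2 * X + 1 := (Nat.ceil_lt_add_one (by positivity)).le
  -- the size of `M`
  have hy : (mL m k l : ℝ) ≤ 16 * X * SS m (sL m k l) := by
    have h1 := le_rpow_mul_SS (k := k) (i := 0) hm n9 n10 (Nat.zero_le _)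
    rw [Nat.sub_zero] at h1
    have h2 : ((mL m k l : ℝ)) ^ ((((0 : ℕ) : ℝ) + 2) / (m : ℝ)) ≤ X := by
      have h3 : (mL m k l : ℝ) ≤ l := by exact_mod_cast l1_le (ins m k) l
      calc ((mL m k l : ℝ)) ^ ((((0 : ℕ) : ℝ) + 2) / (m : ℝ)) ≤
            (l : ℝ) ^ ((((0 : ℕ) : ℝ) + 2) / (m : ℝ)) :=
            Real.rpow_le_rpow (Nat.cast_nonneg _) h3 (by positivity)
        _ ≤ X := by
            refine Real.rpow_le_rpow_of_exponent_le hl1 ?_
            refine div_le_div_of_nonneg_right ?_ hmR.le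
            push_cast
            have : (0 : ℝ) ≤ E := Nat.cast_nonneg _
            linarith
    have h4 : (0 : ℝ) ≤ SS m (sL m k l) := Nat.cast_nonneg _
    calc (mL m k l : ℝ) ≤ 2 ^ (0 + 4) * (mL m k l : ℝ) ^ ((((0 : ℕ) : ℝ) + 2) / (m : ℝ)) *
          (SS m (sv m k (mL m k l)) : ℝ) := h1
      _ ≤ 2 ^ (0 + 4) * X * (SS m (sL m k l) : ℝ) := by
          refine mul_le_mul_of_nonneg_right ?_ h4
          exact mul_le_mul_of_nonneg_left h2 (by positivity)
      _ = _ := by norm_num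
  have hM1 : (20000 + 100 * Fintype.card (Fin 4)) * mL m k l ≤
      M * (mL m k l - mL m k l') := by
    rw [Fintype.card_fin]
    have h1 : ((199 * SS m (sL m k l) : ℕ) : ℝ) ≤ ((mL m k l - mL m k l' : ℕ) : ℝ) :=
      Nat.cast_le.2 n13
    have h2 : (20400 : ℝ) * mL m k l ≤ M * ((mL m k l - mL m k l' : ℕ) : ℝ) := by
      push_cast at h1
      have h3 : (0 : ℝ) ≤ SS m (sL m k l) := Nat.cast_nonneg _
      have h4 : (1700 : ℝ) * X ≤ M := by
        refine le_trans ?_ hMl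
        refine mul_le_mul_of_nonneg_right ?_ (by linarith)
        rw [hC2]
        linarith
      calc (20400 : ℝ) * mL m k l ≤ 20400 * (16 * X * SS m (sL m k l)) :=
            mul_le_mul_of_nonneg_left hy (by norm_num)
        _ ≤ (1700 * X) * (199 * SS m (sL m k l)) := by nlinarith
        _ ≤ M * ((mL m k l - mL m k l' : ℕ) : ℝ) :=
            mul_le_mul h4 h1 (by positivity) (Nat.cast_nonneg _)
    have h5 : (((20000 + 100 * 4) * mL m k l : ℕ) : ℝ) ≤
        ((M * (mL m k l - mL m k l') : ℕ) : ℝ) := by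
      rw [Nat.cast_mul, Nat.cast_mul]
      push_cast at h2 ⊢
      linarith
    exact_mod_cast h5
  have hM2 : 2 * BP k ≤ M := by
    have h1 : (2 * BP k : ℝ) ≤ M := by
      refine le_trans ?_ hMl
      calc (2 * BP k : ℝ) ≤ C2 * 1 := by rw [hC2]; linarith
        _ ≤ _ := mul_le_mul_of_nonneg_left hX1 hC20
    exact_mod_cast h1
  have hσ : (jS m k l').a ≤ (jS m k l).a := by
    show aJ m k (sL m k l') l' ≤ aJ m k (sL m k l) l
    rw [hs]
    exact aJ_mono m k (sL m k l) hl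
  have ha' : (jS m k l').a = aJ m k (sL m k l) l' := by
    show aJ m k (sL m k l') l' = _
    rw [hs]
  have hLay' : LayG (Mk m k) K (pJ k (sL m k l)) (jS m k l') := by
    have h1 := layG (k := k) (l := l') hm n8 hK'
    rw [hs] at h1
    exact h1
  have hB := hf (mL m k l) (mL m k l') n3 n2 n11 (Mk m k) K (pJ k (sL m k l)) (pr_ok k _)
    (fun _ => rfl) (jS m k l) (jS m k l') (eSide m k l) (eSide m k l') hσ
    (kInj (by omega) _) (layG hm n7 hK) hLay' (17 * NL m k l')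
    (17 * NL m k l + 17 * NL m k l' + 1) M
    (by rw [ha']; exact n14) n15 (by rw [ha']; exact n16) n17 hM1 hM2
  have hor := PrLe_or hA hB
  refine PrLe_mono ?_ ?_ hor
  · intro r hr0 hw
    generalize ext K r = w at hw ⊢
    obtain ⟨c, ⟨n, rfl⟩, hcl⟩ := hw
    by_contra hcon
    rw [not_or] at hcon
    obtain ⟨hcon1, hcon2⟩ := hcon
    have hbig : (M + 1) ^ 2 ^ 14 ≤ Rp m k l l' w n := by
      have h1 : ((M : ℝ) + 1) ^ P14 ≤ (C2 + 2) ^ P14 *
          (l : ℝ) ^ (((2 ^ 14 * (E + 2) : ℕ) : ℝ) / (m : ℝ)) := by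
        have h2 : (M : ℝ) + 1 ≤ (C2 + 2) * X := by nlinarith
        have h3 : X ^ P14 = (l : ℝ) ^ (((2 ^ 14 * (E + 2) : ℕ) : ℝ) / (m : ℝ)) := by
          rw [hX, ← Real.rpow_natCast, ← Real.rpow_mul (by linarith), ← hP14]
          congr 1
          push_cast
          ring
        rw [← h3, ← mul_pow]
        exact pow_le_pow_left₀ (by positivity) h2 _
      have h4 : (((M + 1) ^ P14 : ℕ) : ℝ) ≤ (Rp m k l l' w n : ℝ) := by
        push_cast
        exact h1.trans hcl.le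
      rw [← hP14]
      exact_mod_cast h4
    have hpos : 0 < Rp m k l l' w n := lt_of_lt_of_le (by positivity) hbig
    have hnN : n < 17 * NL m k l + 17 * NL m k l' + 1 := by
      unfold Rp at hpos
      obtain ⟨q, hq⟩ := Finset.card_pos.1 hpos
      rw [mem_filter, mem_product] at hq
      have h1 := (hr l (by omega) w q.1 hq.1.1).2.1
      have h2 := (hr l' (by omega) w q.2 hq.1.2).2.1
      omega
    have hnoT : ¬ ∃ T ⊆ YY (pJ k (sL m k l)) (jS m k l) (jS m k l') (17 * NL m k l') n,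
        (M + 1) ^ 2 ^ 14 ≤ T.card ∧
        (∀ y ∈ T, isHit (pJ k (sL m k l)) (jS m k l) (jS m k l') n w y) ∧
        Set.InjOn hz (T : Set (Hit JF)) ∧
        ¬ ∃ T' ⊆ T, T'.card = M + 1 ∧ ∃ C C' : Finset JF,
          ((∀ f, Sum.inl f ∈ C) ∧ ∀ f, Sum.inl f ∈ C') ∧ Pat C C' T' := by
      rintro ⟨T, hT, hcard, hh, hi, hno⟩
      refine hcon2 ⟨n, hnN, T, hT, ?_, hh, hi, hno⟩
      rw [dvd_two_pow_card]
      exact hcard
    obtain ⟨z, z', hz⟩ := crude_pair hm hs w (fun a ha => (hr l' (by omega) w a ha).2.1) hbig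
      hnoT
    refine hcon1 ⟨_, ⟨n, z, z', rfl⟩, ?_⟩
    have h5 : C1 * (l : ℝ) ^ ((E : ℝ) / (m : ℝ)) ≤ M := by
      refine le_trans ?_ hMl
      refine mul_le_mul (by rw [hC2]; linarith) ?_ (by positivity) hC20
      refine Real.rpow_le_rpow_of_exponent_le hl1 ?_
      refine div_le_div_of_nonneg_right ?_ hmR.le
      push_cast
      linarith
    have h6 : ((M + 1 : ℕ) : ℝ) ≤ (((Hts m k l l' w n).filter
      (fun q => (∀ f, q.1.1.1 (Sum.inl f) = z f) ∧
        ∀ f, q.2.1.1 (Sum.inl f) = z' f)).card : ℝ) := Nat.cast_le.2 hz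
    push_cast at h6
    linarith
  · have h1 : (l : ℝ) ^ (min c0 (1 / 2)) ≤ (l : ℝ) ^ c0 :=
      Real.rpow_le_rpow_of_exponent_le hl1 (min_le_left _ _)
    have h2 : (l : ℝ) ^ (min c0 (1 / 2)) ≤ mL m k l := by
      calc (l : ℝ) ^ (min c0 (1 / 2)) ≤ (l : ℝ) ^ ((1 : ℝ) / 2) :=
            Real.rpow_le_rpow_of_exponent_le hl1 (min_le_right _ _)
        _ = Real.sqrt l := by rw [Real.sqrt_eq_rpow]
        _ ≤ l / 10 := by
            rw [Real.sqrt_le_left (by positivity)]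
            have h3 : (100 : ℝ) ≤ l := by exact_mod_cast (by omega : 100 ≤ l)
            nlinarith
        _ ≤ mL m k l := by
            have h4 : (1000 : ℝ) * l ≤ 1001 * mL m k l := by exact_mod_cast n12
            linarith
    have h3 : Real.exp (-((l : ℝ) ^ c0)) ≤ Real.exp (-((l : ℝ) ^ (min c0 (1 / 2)))) :=
      Real.exp_le_exp.2 (neg_le_neg h1)
    have h4 : Real.exp (-(mL m k l : ℝ)) ≤ Real.exp (-((l : ℝ) ^ (min c0 (1 / 2)))) :=
      Real.exp_le_exp.2 (neg_le_neg h2)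
    calc q0 * Real.exp (-((l : ℝ) ^ c0)) + Real.exp (-(mL m k l : ℝ)) ≤
          q0 * Real.exp (-((l : ℝ) ^ (min c0 (1 / 2)))) +
            Real.exp (-((l : ℝ) ^ (min c0 (1 / 2)))) :=
          add_le_add (mul_le_mul_of_nonneg_left h3 hq0) h4
      _ = _ := by ring

end Pool.Agent.Helper25.T5b
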