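import Pool.Agent.Helper25.T5b.Num

/-!
# T5b: the extra digits between two near states
-/

set_option autoImplicit false

namespace Pool.Agent.Helper25.T5b

open Finset Pool.Agent.Helper27.T4
open Pool.Agent.Helper5.ET (bb era own cnt av Nj pr pr_prime pr_inj pre mask)
open Pool.Agent.Helper37.T5b Pool.Agent.Helper84.T5b Pool.Agent.Helper57.T5
open Pool.Agent.Helper27.T5b hiding c0_lt
open Pool.Agent.Helper30.T5b
open Pool.Agent.Helper98.T5 (al)

variable {m k : ℕ}

/-- extra digits between two near states -/
theorem exists_extra (hm : 0 < m) (k M : ℕ) : ∃ l0, ∀ l l', l0 ≤ l' → l' ≤ l →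
    Near m k l' l →
    l2 (ins m k) l ≤ l2 (ins m k) l' + ((mL m k l - mL m k l') / (M + 1) + 2 +
      RB m (lv m k (era (mL m k l)))) := by
  obtain ⟨j0, hj0⟩ := exists_gap hm (M + 1)
  obtain ⟨l0, h0⟩ := exists_late (m := m) (k := k) hm 0 j0
  refine ⟨l0, fun l l' hl' hl hN => ?_⟩
  obtain ⟨_, a1, a2, a3, _⟩ := h0 l' hl'
  have hyy : mL m k l' ≤ mL m k l := l1_mono (ins m k) hl
  have h1 := l2_sub_le (ins m k) hl
  refine h1.trans (Nat.add_le_add_left ?_ _)
  change ∑ z ∈ Icc (mL m k l') (mL m k l), ins m k z ≤ _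
  have a1' : bb 0 ≤ mL m k l' := a1
  have a2' : kt m k ≤ era (mL m k l') := a2
  have a3' : j0 ≤ era (mL m k l') := a3
  have hN' : 4 * (mL m k l - mL m k l') < ZZ m k (era (mL m k l')) := hN
  generalize mL m k l = y at *
  generalize mL m k l' = y' at *
  have hZ := ZZ_small (k := k) hm a2'
  have hsp := (era_spec y' a1').1
  have hM : ∀ z, y' ≤ z → M + 1 ≤ Bq m (lv m k (era z) + 1) := by
    intro z hz
    refine (hj0 (lv m k (era z)) ?_).1
    exact (a3'.trans (era_mono hz)).trans (le_kt_lv hm k (era z))
  rcases Nat.lt_or_ge (bb (era y)) y' with hb | hb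
  · have h2 := sum_ins_le (m := m) (k := k) hb
    refine h2.trans ?_
    have h3 : (y - y') / Bq m (lv m k (era y) + 1) ≤ (y - y') / (M + 1) :=
      Nat.div_le_div_left (hM y hyy) (Nat.succ_pos _)
    omega
  · have hy0 : bb 0 ≤ y := a1'.trans hyy
    have hby := (era_spec y hy0).1
    set b := bb (era y) with hbdef
    have h3 : ∑ z ∈ Icc (b + 1) y, ins m k z ≤ (y - (b + 1)) / (M + 1) + 1 := by
      have h40 : bb (era y) < b + 1 := by omega
      refine (sum_ins_le (m := m) (k := k) h40).trans ?_
      have h4 : (y - (b + 1)) / Bq m (lv m k (era y) + 1) ≤ (y - (b + 1)) / (M + 1) :=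
        Nat.div_le_div_left (hM y hyy) (Nat.succ_pos _)
      omega
    have h5 : ins m k b = RB m (lv m k (era y)) := ins_bb hm _
    have h6 : ∑ z ∈ Ico y' b, ins m k z ≤ (b - y') / (M + 1) + 1 := by
      rcases Nat.eq_or_lt_of_le hb with h7 | h7
      · rw [h7, Ico_self]
        simp
      · have hj : era y ≠ 0 := by
          intro h8
          rw [hbdef, h8] at h7
          omega
        obtain ⟨j, hj'⟩ := Nat.exists_eq_succ_of_ne_zero hj
        have he : era (b - 1) = j := by
          refine Pool.Agent.Helper27.T4.era_eq _ _ ?_ ?_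
          · have := Pool.Agent.Helper27.T4.bb_lt_succ j
            rw [hbdef, hj', Nat.succ_eq_add_one]
            omega
          · rw [hbdef, hj', Nat.succ_eq_add_one]
            have := Pool.Agent.Helper27.T4.bb_lt_succ j
            omega
        have h9 : bb j < y' := by
          by_contra hc
          push Not at hc
          have h10 := len_bounds j
          have h11 := bb_add_len j
          rw [← Nat.succ_eq_add_one j, ← hj', ← hbdef] at h11
          have h12 := bb_ge_pow j
          have h13 : 1024 * ZZ m k (era y') ≤ bb (era y') :=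
            le_trans (Nat.mul_le_mul_right _ (by
              calc 1024 = 2 ^ 10 := by norm_num
                _ ≤ 2 ^ 200 := Nat.pow_le_pow_right (by norm_num) (by norm_num))) hZ
          omega
        have h14 : Ico y' b = Icc y' (b - 1) := by
          ext z
          rw [mem_Ico, mem_Icc]
          omega
        rw [h14]
        have h15 : bb (era (b - 1)) < y' := by
          rw [he]
          exact h9
        refine (sum_ins_le (m := m) (k := k) h15).trans ?_
        have h16 : (b - 1 - y') / Bq m (lv m k (era (b - 1)) + 1) ≤ (b - 1 - y') / (M + 1) :=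
          Nat.div_le_div_left (hM _ (by omega)) (Nat.succ_pos _)
        have h17 : (b - 1 - y') / (M + 1) ≤ (b - y') / (M + 1) :=
          Nat.div_le_div_right (by omega)
        omega
    have h18 : Icc y' y = Ico y' b ∪ ({b} ∪ Icc (b + 1) y) := by
      ext z
      simp only [mem_union, mem_Icc, mem_Ico, mem_singleton]
      omega
    rw [h18, sum_union, sum_union, sum_singleton]
    · have h19 : (b - y') / (M + 1) + (y - (b + 1)) / (M + 1) ≤ (y - y') / (M + 1) := by
        refine Nat.div_add_div_le_add_div.trans (Nat.div_le_div_right ?_)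
        omega
      omega
    · rw [disjoint_left]
      intro z h1 h2
      simp only [mem_Icc, mem_singleton] at h1 h2
      omega
    · rw [disjoint_left]
      intro z h1 h2
      simp only [mem_union, mem_Ico, mem_Icc, mem_singleton] at h1 h2
      omega

/-! ## counts of the joint families -/

/-- the family of the chain belonging to a joint family -/
def gJ (s : ℕ) : JF → Fin 3 ⊕ Option (ℕ × Fin 3) :=
  Sum.elim Sum.inl (Fin.cases (Sum.inr none) (fun f => Sum.inr (some (s + 1, f))))

theorem gJ_inj (s : ℕ) : Function.Injective (gJ s) := by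
  rintro (f | i) (g | j) h
  · exact congrArg Sum.inl (Sum.inl_injective h)
  · exfalso
    revert h
    refine Fin.cases ?_ (fun g => ?_) j <;> simp [gJ]
  · exfalso
    revert h
    refine Fin.cases ?_ (fun g => ?_) i <;> simp [gJ]
  · revert h
    refine Fin.cases ?_ (fun f => ?_) i
    · refine Fin.cases ?_ (fun g => ?_) j
      · simp [gJ]
      · simp [gJ]
    · refine Fin.cases ?_ (fun g => ?_) j
      · simp [gJ]
      · simp [gJ]

theorem aJ_eq_ct (m k s l : ℕ) (i : JF) : aJ m k s l i = ct (ins m k) own (ex m k) (gJ s i) l := by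
  rcases i with f | i
  · rfl
  · refine Fin.cases ?_ (fun f => ?_) i <;> rfl

theorem sum_aJ_le (m k s : ℕ) {y z : ℕ} (h : y ≤ z) :
    ∑ i, aJ m k s z i ≤ ∑ i, aJ m k s y i + (z - y) := by
  induction z, h using Nat.le_induction with
  | base => omega
  | succ z hz ih =>
    have e : z + 1 - y = (z - y) + 1 := by omega
    rw [e]
    have h1 : ∑ i, aJ m k s (z + 1) i ≤ ∑ i, aJ m k s z i + 1 := by
      have h2 : ∀ i, aJ m k s (z + 1) i = aJ m k s z i +
          (if ow (ins m k) own (ex m k) z = gJ s i then 1 else 0) := by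
        intro i
        rw [aJ_eq_ct, aJ_eq_ct, ct_succ]
      rw [Finset.sum_congr rfl (fun i _ => h2 i), Finset.sum_add_distrib]
      refine Nat.add_le_add_left ?_ _
      rw [← Finset.card_filter, Finset.card_le_one]
      intro i hi j hj
      rw [mem_filter] at hi hj
      exact gJ_inj s (hi.2.symm.trans hj.2)
    omega

theorem sum_main (m k s l : ℕ) : ∑ f : Fin 3, aJ m k s l (Sum.inl f) = mL m k l := by
  rw [Finset.sum_congr rfl (fun f _ => aJ_inl m k s l f)]
  exact Pool.Agent.Helper36.T4.cnt_total _

/-- the extra joint digits between two states -/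
theorem sum_inr_le (m k s : ℕ) {l' l : ℕ} (h : l' ≤ l) :
    ∑ q : Fin 4, aJ m k s l (Sum.inr q) + l2 (ins m k) l' ≤
      ∑ q : Fin 4, aJ m k s l' (Sum.inr q) + l2 (ins m k) l := by
  have h1 := sum_aJ_le m k s h
  rw [Fintype.sum_sum_type, Fintype.sum_sum_type, sum_main, sum_main] at h1
  have h2 := l1_add_l2 (ins m k) l
  have h3 := l1_add_l2 (ins m k) l'
  have h4 : mL m k l' ≤ mL m k l := l1_mono (ins m k) h
  have e1 : mL m k l = l1 (ins m k) l := rfl
  have e2 : mL m k l' = l1 (ins m k) l' := rfl
  omega

end Pool.Agent.Helper25.T5b
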