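import Pool.Agent.Helper87.OUT2.Defs
import Pool.Agent.Helper25.T5b.Extra
import Pool.Agent.Helper30.T5b.NLb

/-!
# T5b, line 5, (L4): moving extra families are keys of the outermost static level
-/

set_option autoImplicit false

namespace Pool.Agent.Helper25.T5b

open Finset Pool.Agent.Helper27.T4
open Pool.Agent.Helper5.ET (bb era own cnt av Nj pr pr_prime pr_inj pre mask)
open Pool.Agent.Helper37.T5b Pool.Agent.Helper84.T5b Pool.Agent.Helper57.T5
open Pool.Agent.Helper27.T5b hiding c0_lt
open Pool.Agent.Helper30.T5b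

variable {m k : ℕ}

/-- a growing family owns a digit in the interval -/
theorem exists_digit {f : Fin 3 ⊕ Option (ℕ × Fin 3)} {l l' : ℕ} (hl : l' ≤ l)
    (h : ct (ins m k) own (ex m k) f l ≠ ct (ins m k) own (ex m k) f l') :
    ∃ i, l' ≤ i ∧ i < l ∧ ow (ins m k) own (ex m k) i = f := by
  by_contra hc
  push Not at hc
  apply h
  unfold ct
  congr 1
  ext i
  rw [mem_filter, mem_filter, mem_range, mem_range]
  constructor
  · rintro ⟨h1, h2⟩
    refine ⟨?_, h2⟩
    by_contra h3
    exact hc i (not_lt.1 h3) h1 h2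
  · rintro ⟨h1, h2⟩
    exact ⟨h1.trans_le hl, h2⟩

/-- **(L4)** -/
theorem mov_keyed (hm : 0 < m) {l l' : ℕ} (hl : l' ≤ l)
    (hN : Near m k l' l) (hs : Same m k l' l) (i : Fin 4)
    (h : aJ m k (sL m k l) l (Sum.inr i) ≠ aJ m k (sL m k l) l' (Sum.inr i)) :
    Sum.inr i ∈ okeyF m k l ∧ Sum.inr i ∈ okeyF m k l' := by
  have hmem : ∀ x, (keyed m k (mL m k x) ∨ i = 0) → Sum.inr i ∈ okeyF m k x := by
    intro x hx
    unfold okeyF
    split_ifs with h1
    · rw [mem_filter]
      exact ⟨mem_univ _, rfl⟩
    · rcases hx with hx | hx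
      · exact absurd hx h1
      · rw [hx, mem_singleton]
  revert h hmem
  refine Fin.cases ?_ (fun f => ?_) i
  · intro _ hmem
    exact ⟨hmem l (Or.inr rfl), hmem l' (Or.inr rfl)⟩
  · intro h hmem
    have h1 : ct (ins m k) own (ex m k) (Sum.inr (some (sL m k l + 1, f))) l ≠
        ct (ins m k) own (ex m k) (Sum.inr (some (sL m k l + 1, f))) l' := h
    obtain ⟨j, hj1, hj2, hj3⟩ := exists_digit hl h1
    obtain ⟨hk, n, hn1, hn2, hn3, _⟩ := (ow_eq_some hm).1 hj3
    set s := sL m k l with hsd
    have hks : k ≤ s := by omega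
    -- the main position of the digit
    have h2 : l1 (ins m k) j = gy m (s + 1) n := by
      rw [hn3]
      exact l1_beg _ _
    have h3 : mL m k l' ≤ gy m (s + 1) n := by
      rw [← h2]
      exact l1_mono (ins m k) hj1
    have h4 : gy m (s + 1) n ≤ mL m k l := by
      rw [← h2]
      exact l1_mono (ins m k) hj2.le
    have h5 : gy m (s + 1) n ≤ nE m k (s + 1) :=
      Nat.add_le_add_left (Nat.mul_le_mul_right _ hn2) _
    have h6 := nE_le_nD m k (s + 1)
    have h7 : nU m k (s + 1) = nE m k (s + 1) + Zt m (s + 1) := rfl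
    have h8 := Zt_pos m (s + 1)
    have h9 : ut m (s + 1) ≤ gy m (s + 1) n := Nat.le_add_right _ _
    have h10 := bb_le_ut m (s + 1)
    have h11 : era (gy m (s + 1) n) = kt m (s + 1) :=
      era_of_mem (k := k) hm (by omega) (by omega)
    -- the level of a position which is not keyed
    have hlv : ∀ x, sL m k x = s → ¬ keyed m k (mL m k x) →
        nU m k (s + 1) ≤ mL m k x := by
      intro x hx hx2
      unfold keyed at hx2
      rw [not_not] at hx2
      obtain ⟨a1, a2, a3⟩ := hx2
      have a4 : sv m k (mL m k x) = s := hx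
      unfold sv at a4
      rw [if_neg (fun c => by omega), add_zero] at a4
      rwa [a4] at a2
    have hs' : sL m k l' = s := hs
    refine ⟨hmem l (Or.inl ?_), hmem l' (Or.inl ?_)⟩
    · by_contra hc
      have a1 := hlv l rfl hc
      unfold Near at hN
      have a2 : ZZ m k (era (mL m k l')) ≤ ZZ m k (kt m (s + 1)) := by
        apply ZZ_mono hm k
        rw [← h11]
        exact era_mono h3
      have a3 : ZZ m k (kt m (s + 1)) = Zt m (s + 1) := by
        unfold ZZ
        rw [if_pos (spec_kt hm hks), lv_kt hm hks]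
      omega
    · by_contra hc
      have a1 := hlv l' hs' hc
      omega

end Pool.Agent.Helper25.T5b
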