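import Pool.Agent.Helper87.OUT2.Defs
import Pool.Agent.Helper44.T5b.NearR
import Pool.Agent.Helper27.T5b.Range
import Pool.Agent.Helper25.T5b.Extra

/-!
# T5b, line 5, (L5): the labels of a void pair
-/

set_option autoImplicit false

namespace Pool.Agent.Helper25.T5b

open Finset Pool.Agent.Helper27.T4
open Pool.Agent.Helper5.ET (bb era own cnt av Nj pr pr_prime pr_inj pre mask)
open Pool.Agent.Helper37.T5b Pool.Agent.Helper84.T5b Pool.Agent.Helper57.T5
open Pool.Agent.Helper30.T5b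
open Pool.Agent.Helper87.OUT2
open Pool.Agent.Helper44.T5b (c0_eq c0G_cast_low XJG_spec XJ_eq pJ_ne_two)

variable {m k : ℕ}

/-- the element without its joint code is divisible by the joint digits below the state -/
theorem exists_val_eq (hm : 0 < m) {l : ℕ} {w : Key → ℕ} {q : Par m k l} (hq : q ∈ Pm m k l w) :
    ∃ v, Jn m k (sL m k l) l ∣ v ∧ val m k l w q = c0 m k l w q.1.1 + v := by
  refine ⟨(∑ t : Fin (rL m k l), cs m k l t w (okey m k l t q.1.1) (q.1.2 t)) + q.2, ?_, ?_⟩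
  · refine dvd_add (Finset.dvd_sum (fun t _ => ?_)) ?_
    · refine dvd_trans ?_ (Pool.Agent.Helper44.T5b.dvd_cs m k l t w _ _)
      exact Dvd.dvd.mul_right (Pool.Agent.Helper44.T5b.Jn_dvd_FF hm k l (t + 1)) _
    · unfold Pm at hq
      rw [mem_product, mem_image] at hq
      obtain ⟨_, v, _, hv⟩ := hq
      rw [← hv]
      unfold Un
      rw [mul_assoc]
      exact dvd_mul_right _ _
  · unfold Pool.Agent.Helper84.T5b.val el
    ring

/-- the residue of an element at a joint family -/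
theorem val_cast (hm : 0 < m) {l : ℕ} {w : Key → ℕ} {q : Par m k l} (hq : q ∈ Pm m k l w)
    (i : JF) : ((val m k l w q : ℕ) : ZMod (pJ k (sL m k l) i ^ aJ m k (sL m k l) l i)) =
      Lg (pJ k (sL m k l) i) (aJ m k (sL m k l) l i) (q.1.1 i) +
      ((w (Key.J l i (maskJ (preJ m k l i) q.1.1)) : ℕ) :
        ZMod (pJ k (sL m k l) i ^ aJ m k (sL m k l) l i)) := by
  obtain ⟨v, hv, he⟩ := exists_val_eq hm hq
  have hx : q.1.1 ∈ XJ m k l := by
    unfold Pm at hq
    rw [mem_product, mem_product] at hq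
    exact hq.1.1
  rw [XJ_eq] at hx
  have h1 := XJG_spec hx i
  have h2 : ((v : ℕ) : ZMod (pJ k (sL m k l) i ^ aJ m k (sL m k l) l i)) = 0 := by
    rw [ZMod.natCast_eq_zero_iff]
    exact (pow_dvd_NN (pJ k (sL m k l)) (aJ m k (sL m k l) l) i).trans hv
  rw [he, Nat.cast_add, h2, add_zero, c0_eq]
  exact c0G_cast_low m k _ _ l w _ i
    (Pool.Agent.Helper44.T5b.aJ_mono m k _ i (by
      show l ≤ ez m (sL m k l - 0) l
      exact (lt_ez hm _ l).le)) h1.2.1

/-- the number of values of one coordinate with a given residue -/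
theorem card_coord_le {s l : ℕ} (i : JF) (t : ZMod (pJ k s i ^ aJ m k s l i)) (U : Finset ℕ)
    (hU : ∀ u ∈ U, (u.Coprime (pJ k s i) ∧ ((aJ m k s l i = 0 ∧ u = 1) ∨
      u ^ 2 < pJ k s i ^ aJ m k s l i)) ∧ Lg (pJ k s i) (aJ m k s l i) u = t) :
    U.card ≤ pJ k s i := by
  refine le_trans (card_le_card ?_) ((card_Lg_le (pJ_prime k s i) (pJ_ne_two k s i)
    (aJ m k s l i) t).trans (Nat.sub_le _ _))
  intro u hu
  obtain ⟨⟨h1, h2⟩, h3⟩ := hU u hu
  rw [mem_filter, mem_range]
  refine ⟨?_, h1, h3⟩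
  have hp := (pJ_prime k s i).one_lt
  rcases h2 with ⟨h2, rfl⟩ | h2
  · rw [h2]
    simpa using hp
  · have h4 : u ≤ u ^ 2 := Nat.le_self_pow (by norm_num) u
    calc u ≤ u ^ 2 := h4
      _ < pJ k s i ^ aJ m k s l i := h2
      _ ≤ _ := Nat.pow_le_pow_right hp.le (Nat.le_succ _)

/-- **(L5)** the labels of a void pair -/
theorem void (hm : 0 < m) {l l' : ℕ} (hs : sL m k l' = sL m k l) {w : Key → ℕ}
    (hr : ∀ a ∈ AA m k l' w, a < NL m k (l' + 1)) (hv : Vd m k l' l) (n : ℕ)
    (z z' : Fin 3 → ℕ) :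
    (LabH m k l l' w n z z').card ≤ ∏ i : Fin 4, pJ k (sL m k l) (Sum.inr i) ^ 2 := by
  classical
  rcases (LabH m k l l' w n z z').eq_empty_or_nonempty with he | ⟨g0, hg0⟩
  · rw [he]
    simp
  unfold LabH at hg0
  rw [mem_image] at hg0
  obtain ⟨q0, hq0, rfl⟩ := hg0
  rw [mem_filter] at hq0
  obtain ⟨hq0H, hq0z, hq0z'⟩ := hq0
  unfold Hts at hq0H
  rw [mem_filter, mem_product] at hq0H
  obtain ⟨⟨hq01, hq02⟩, hq0n⟩ := hq0H
  -- all hits have the same elements
  have key : ∀ q ∈ Hts m k l l' w n, (∀ f, q.1.1.1 (Sum.inl f) = z f) →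
      (∀ f, q.2.1.1 (Sum.inl f) = z' f) →
      val m k l w q.1 = val m k l w q0.1 ∧ val m k l' w q.2 = val m k l' w q0.2 := by
    intro q hq hz hz'
    unfold Hts at hq
    rw [mem_filter, mem_product] at hq
    obtain ⟨⟨h1, h2⟩, h3⟩ := hq
    have h4 : (val m k l w q.1 : ZMod (NN pr (av (mL m k l)))) = val m k l w q0.1 := by
      rw [natCast_eq_iff pr_prime pr_inj]
      intro f
      have h5 := val_cast hm h1 (Sum.inl f)
      have h6 := val_cast hm hq01 (Sum.inl f)
      have h7 : maskJ (preJ m k l (Sum.inl f)) q.1.1.1 =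
          maskJ (preJ m k l (Sum.inl f)) q0.1.1.1 := by
        refine Pool.Agent.Helper44.T5b.maskJ_congr (fun g hg => ?_)
        have hg' : g ∈ (pre (mL m k l) f).image Sum.inl := hg
        rw [mem_image] at hg'
        obtain ⟨g', _, rfl⟩ := hg'
        rw [hz g', hq0z g']
      rw [hz f, h7] at h5
      rw [hq0z f] at h6
      have h8 := h5.trans h6.symm
      rw [ZMod.natCast_eq_natCast_iff] at h8 ⊢
      rwa [aJ_inl] at h8
    have h5 : (val m k l' w q.2 : ZMod (NN pr (av (mL m k l)))) = val m k l' w q0.2 := by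
      have h6 : ((val m k l w q.1 + val m k l' w q.2 : ℕ) : ZMod (NN pr (av (mL m k l)))) =
          ((val m k l w q0.1 + val m k l' w q0.2 : ℕ) : ZMod (NN pr (av (mL m k l)))) := by
        rw [h3, hq0n]
      rw [Nat.cast_add, Nat.cast_add, h4] at h6
      exact add_left_cancel h6
    have h6 : val m k l' w q.2 = val m k l' w q0.2 := by
      rw [ZMod.natCast_eq_natCast_iff, Nat.ModEq] at h5
      have hvm : ∀ q : Par m k l', q ∈ Pm m k l' w → val m k l' w q ∈ AA m k l' w := by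
        intro q hq
        rw [AA_eq]
        exact mem_image_of_mem _ hq
      have h7 := hr _ (hvm _ h2)
      have h8 := hr _ (hvm _ hq02)
      have h9 : NL m k (l' + 1) ≤ NN pr (av (mL m k l)) := hv
      rwa [Nat.mod_eq_of_lt (lt_of_lt_of_le h7 h9), Nat.mod_eq_of_lt (lt_of_lt_of_le h8 h9)] at h5
    refine ⟨?_, h6⟩
    omega
  -- the extra coordinates
  have ext1 : ∀ q ∈ Hts m k l l' w n, (∀ f, q.1.1.1 (Sum.inl f) = z f) →
      (∀ f, q.2.1.1 (Sum.inl f) = z' f) → ∀ i : Fin 4,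
      Lg (pJ k (sL m k l) (Sum.inr i)) (aJ m k (sL m k l) l (Sum.inr i)) (q.1.1.1 (Sum.inr i)) =
        Lg (pJ k (sL m k l) (Sum.inr i)) (aJ m k (sL m k l) l (Sum.inr i))
          (q0.1.1.1 (Sum.inr i)) := by
    intro q hq hz hz' i
    have h0 := (key q hq hz hz').1
    unfold Hts at hq
    rw [mem_filter, mem_product] at hq
    have h5 := val_cast hm hq.1.1 (Sum.inr i)
    have h6 := val_cast hm hq01 (Sum.inr i)
    rw [h0] at h5
    have h7 := h5.symm.trans h6
    exact add_right_cancel h7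
  have ext2 : ∀ q ∈ Hts m k l l' w n, (∀ f, q.1.1.1 (Sum.inl f) = z f) →
      (∀ f, q.2.1.1 (Sum.inl f) = z' f) → ∀ i : Fin 4,
      Lg (pJ k (sL m k l') (Sum.inr i)) (aJ m k (sL m k l') l' (Sum.inr i))
        (q.2.1.1 (Sum.inr i)) =
        Lg (pJ k (sL m k l') (Sum.inr i)) (aJ m k (sL m k l') l' (Sum.inr i))
          (q0.2.1.1 (Sum.inr i)) := by
    intro q hq hz hz' i
    have h0 := (key q hq hz hz').2
    unfold Hts at hq
    rw [mem_filter, mem_product] at hq
    have h5 := val_cast hm hq.1.2 (Sum.inr i)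
    have h6 := val_cast hm hq02 (Sum.inr i)
    rw [h0] at h5
    have h7 := h5.symm.trans h6
    exact add_right_cancel h7
  -- the map to the extra coordinates
  set L := LabH m k l l' w n z z' with hL
  set A : Fin 4 → Finset ℕ := fun i => L.image (fun g => g.1 (Sum.inr i)) with hA
  set A' : Fin 4 → Finset ℕ := fun i => L.image (fun g => g.2 (Sum.inr i)) with hA'
  have hLspec : ∀ g ∈ L, ∃ q ∈ Hts m k l l' w n, (∀ f, q.1.1.1 (Sum.inl f) = z f) ∧
      (∀ f, q.2.1.1 (Sum.inl f) = z' f) ∧ g = (q.1.1.1, q.2.1.1) := by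
    intro g hg
    rw [hL] at hg
    unfold LabH at hg
    rw [mem_image] at hg
    obtain ⟨q, hq, rfl⟩ := hg
    rw [mem_filter] at hq
    exact ⟨q, hq.1, hq.2.1, hq.2.2, rfl⟩
  have hA1 : ∀ i, (A i).card ≤ pJ k (sL m k l) (Sum.inr i) := by
    intro i
    refine card_coord_le (m := m) (l := l) (Sum.inr i)
      (Lg (pJ k (sL m k l) (Sum.inr i)) (aJ m k (sL m k l) l (Sum.inr i))
        (q0.1.1.1 (Sum.inr i))) _ ?_
    intro u hu
    rw [hA, mem_image] at hu
    obtain ⟨g, hg, rfl⟩ := hu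
    obtain ⟨q, hq, h1, h2, rfl⟩ := hLspec g hg
    refine ⟨?_, ext1 q hq h1 h2 i⟩
    unfold Hts at hq
    rw [mem_filter, mem_product] at hq
    have hq1 := hq.1.1
    unfold Pm at hq1
    rw [mem_product, mem_product] at hq1
    have h3 := hq1.1.1
    rw [XJ_eq] at h3
    exact (XJG_spec h3 (Sum.inr i)).2
  have hA2 : ∀ i, (A' i).card ≤ pJ k (sL m k l) (Sum.inr i) := by
    intro i
    rw [← hs]
    refine card_coord_le (m := m) (l := l') (Sum.inr i)
      (Lg (pJ k (sL m k l') (Sum.inr i)) (aJ m k (sL m k l') l' (Sum.inr i))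
        (q0.2.1.1 (Sum.inr i))) _ ?_
    intro u hu
    rw [hA', mem_image] at hu
    obtain ⟨g, hg, rfl⟩ := hu
    obtain ⟨q, hq, h1, h2, rfl⟩ := hLspec g hg
    refine ⟨?_, ext2 q hq h1 h2 i⟩
    unfold Hts at hq
    rw [mem_filter, mem_product] at hq
    have hq1 := hq.1.2
    unfold Pm at hq1
    rw [mem_product, mem_product] at hq1
    have h3 := hq1.1.1
    rw [XJ_eq] at h3
    exact (XJG_spec h3 (Sum.inr i)).2
  have hinj : Set.InjOn (fun g : (JF → ℕ) × (JF → ℕ) =>
      ((fun i : Fin 4 => g.1 (Sum.inr i)), fun i : Fin 4 => g.2 (Sum.inr i))) (L : Set _) := by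
    intro g hg h hh he
    obtain ⟨q, _, a1, a2, rfl⟩ := hLspec g hg
    obtain ⟨r, _, b1, b2, rfl⟩ := hLspec h hh
    simp only [Prod.mk.injEq] at he
    refine Prod.ext ?_ ?_
    · funext i
      rcases i with f | i
      · exact (a1 f).trans (b1 f).symm
      · exact congrFun he.1 i
    · funext i
      rcases i with f | i
      · exact (a2 f).trans (b2 f).symm
      · exact congrFun he.2 i
  have h1 : L.card ≤ (Fintype.piFinset A ×ˢ Fintype.piFinset A').card := by
    refine card_le_card_of_injOn _ ?_ hinj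
    intro g hg
    rw [mem_coe, mem_product, Fintype.mem_piFinset, Fintype.mem_piFinset]
    exact ⟨fun i => mem_image_of_mem _ hg, fun i => mem_image_of_mem _ hg⟩
  refine h1.trans ?_
  rw [card_product, Fintype.card_piFinset, Fintype.card_piFinset, ← Finset.prod_mul_distrib]
  refine Finset.prod_le_prod' (fun i _ => ?_)
  rw [pow_two]
  exact Nat.mul_le_mul (hA1 i) (hA2 i)

end Pool.Agent.Helper25.T5b
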